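import Pool.Agent.Y837.SV.Fin1

/-!
Record gaps around families of minors.
-/

set_option autoImplicit false

namespace Pool.Agent.X145.PM

open Finset Matrix

section abs

variable {κ : Type} [Fintype κ] [DecidableEq κ] {p : ℕ} [hp : Fact p.Prime]

/-- replace the entries in `S` -/
def upd {R : Type*} (S : κ → Prop) [DecidablePred S] (A y : κ → R) : κ → R :=
  fun k => if S k then y k else A k

theorem fibre {V : Type} [AddCommGroup V] [Module (ZMod p) V] [Fintype V]
    (f : V →ₗ[ZMod p] ZMod p) (hf : f ≠ 0) (s : ZMod p) [DecidableEq V] :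
    p * (univ.filter (fun y : V => f y = s)).card = Fintype.card V := by
  classical
  have hsurj : Function.Surjective f := LinearMap.surjective hf
  have h1 : ∀ t : ZMod p, (univ.filter (fun y : V => f y = t)).card =
      (univ.filter (fun y : V => f y = s)).card := by
    intro t
    exact AddMonoidHom.card_fiber_eq_of_mem_range f.toAddMonoidHom (hsurj t) (hsurj s)
  have h2 := Finset.card_eq_sum_card_fiberwise (f := fun y : V => f y)
    (s := univ) (t := univ) (fun _ _ => mem_univ _)
  rw [Finset.sum_congr rfl (fun t _ => h1 t), sum_const, card_univ, card_univ, ZMod.card,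
    smul_eq_mul] at h2
  exact h2.symm

theorem avg (S : κ → Prop) [DecidablePred S] (g : (κ → ZMod p) → ℕ) :
    ∑ A : κ → ZMod p, ∑ y : κ → ZMod p, g (upd S A y) =
      Fintype.card (κ → ZMod p) * ∑ A : κ → ZMod p, g A := by
  classical
  obtain ⟨φ, hφ⟩ : ∃ φ : ((κ → ZMod p) × (κ → ZMod p)) ≃ ((κ → ZMod p) × (κ → ZMod p)),
      ∀ q, (φ q).1 = upd S q.1 q.2 := by
    refine ⟨{
      toFun := fun q => (upd S q.1 q.2, upd S q.2 q.1)
      invFun := fun q => (upd S q.1 q.2, upd S q.2 q.1)
      left_inv := ?_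
      right_inv := ?_ }, fun q => rfl⟩
    · rintro ⟨A, y⟩
      ext k
      · by_cases h : S k <;> simp [upd, h]
      · by_cases h : S k <;> simp [upd, h]
    · rintro ⟨A, y⟩
      ext k
      · by_cases h : S k <;> simp [upd, h]
      · by_cases h : S k <;> simp [upd, h]
  rw [← Fintype.sum_prod_type' (f := fun A y => g (upd S A y))]
  have h1 : ∑ q : (κ → ZMod p) × (κ → ZMod p), g (upd S q.1 q.2) =
      ∑ q : (κ → ZMod p) × (κ → ZMod p), g q.1 := by
    rw [← Equiv.sum_comp φ (fun q => g q.1)]
    exact Finset.sum_congr rfl fun q _ => by rw [hφ]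
  rw [h1, Fintype.sum_prod_type]
  simp only [sum_const, card_univ, smul_eq_mul]
  rw [Finset.mul_sum]

/-- number of points with value `r` -/
def cn (g : (κ → ZMod p) → ZMod p) (r : ZMod p) : ℕ :=
  (univ.filter (fun A : κ → ZMod p => g A = r)).card

/-- `g` is linear in the entries of `S` -/
def LinOn (S : κ → Prop) [DecidablePred S] (g : (κ → ZMod p) → ZMod p) : Prop :=
  ∀ A : κ → ZMod p, ∃ l : (κ → ZMod p) →ₗ[ZMod p] ZMod p, ∀ y, g (upd S A y) = l y

theorem upd_self {R : Type*} (S : κ → Prop) [DecidablePred S] (A : κ → R) : upd S A A = A := by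
  funext k
  simp [upd]

theorem cn_bounds {S : κ → Prop} [DecidablePred S] {g : (κ → ZMod p) → ZMod p}
    (hg : LinOn S g) {D : ℕ} (hz : p * cn g 0 ≤ D * Fintype.card (κ → ZMod p))
    {r : ZMod p} (hr : r ≠ 0) :
    p * cn g r ≤ Fintype.card (κ → ZMod p) ∧
      p * Fintype.card (κ → ZMod p) ≤ p * (p * cn g r) + D * Fintype.card (κ → ZMod p) := by
  classical
  choose l hl using hg
  have hcard0 : 0 < Fintype.card (κ → ZMod p) := Fintype.card_pos
  have key : p * cn g r = (univ.filter (fun A : κ → ZMod p => l A ≠ 0)).card := by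
    refine Nat.eq_of_mul_eq_mul_left hcard0 ?_
    have h1 := avg (p := p) S (fun A => if g A = r then 1 else 0)
    have h2 : ∀ A : κ → ZMod p,
        p * (∑ y : κ → ZMod p, if g (upd S A y) = r then 1 else 0) =
          if l A ≠ 0 then Fintype.card (κ → ZMod p) else 0 := by
      intro A
      have e : (∑ y : κ → ZMod p, if g (upd S A y) = r then 1 else 0) =
          (univ.filter (fun y : κ → ZMod p => l A y = r)).card := by
        rw [Finset.card_filter]
        refine Finset.sum_congr rfl fun y _ => ?_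
        rw [hl]
      rw [e]
      split_ifs with h
      · exact fibre _ h r
      · push Not at h
        rw [h]
        have : (univ.filter (fun y : κ → ZMod p =>
            (0 : (κ → ZMod p) →ₗ[ZMod p] ZMod p) y = r)) = ∅ := by
          rw [Finset.filter_eq_empty_iff]
          intro y _ h3
          exact hr (by rw [← h3]; rfl)
        rw [this, card_empty, mul_zero]
    have h3 : p * (∑ A : κ → ZMod p, ∑ y : κ → ZMod p,
        if g (upd S A y) = r then 1 else 0) =
        Fintype.card (κ → ZMod p) * (univ.filter (fun A : κ → ZMod p => l A ≠ 0)).card := by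
      rw [Finset.mul_sum, Finset.sum_congr rfl (fun A _ => h2 A), ← Finset.sum_filter, sum_const,
        smul_eq_mul, mul_comm]
    rw [h1] at h3
    rw [← h3]
    unfold cn
    rw [Finset.card_filter]
    ring
  rw [key]
  have h1 := Finset.card_filter_add_card_filter_not (s := (univ : Finset (κ → ZMod p)))
    (fun A => l A ≠ 0)
  rw [card_univ] at h1
  have h2 : (univ.filter (fun A : κ → ZMod p => ¬ l A ≠ 0)).card ≤ cn g 0 := by
    refine card_le_card fun A hA => ?_
    rw [mem_filter] at hA ⊢
    refine ⟨mem_univ _, ?_⟩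
    have h3 := hl A A
    have h4 : l A = 0 := by simpa using hA.2
    rw [upd_self, h4] at h3
    exact h3
  refine ⟨by omega, ?_⟩
  have h4 := Nat.mul_le_mul_left p h2
  calc p * Fintype.card (κ → ZMod p) = p * (univ.filter (fun A : κ → ZMod p =>
        l A ≠ 0)).card + p * (univ.filter (fun A : κ → ZMod p =>
        ¬ l A ≠ 0)).card := by rw [← mul_add, h1]
    _ ≤ _ := Nat.add_le_add_left (h4.trans hz) _

theorem pair {S : κ → Prop} [DecidablePred S] {g g' : (κ → ZMod p) → ZMod p}
    (hg : ∀ A y, g (upd S A y) = g A) (hg' : LinOn S g') {r s : ZMod p} (hs : s ≠ 0) :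
    p * (univ.filter (fun A : κ → ZMod p => g A = r ∧ g' A = s)).card ≤ cn g r := by
  classical
  choose l hl using hg'
  have h0 : 0 < Fintype.card (κ → ZMod p) := Fintype.card_pos
  refine Nat.le_of_mul_le_mul_left ?_ h0
  have h1 := avg (p := p) S (fun A => if g A = r ∧ g' A = s then 1 else 0)
  have h2 : ∀ A : κ → ZMod p,
      p * (∑ y : κ → ZMod p,
        if g (upd S A y) = r ∧ g' (upd S A y) = s then 1 else 0) ≤
        if g A = r then Fintype.card (κ → ZMod p) else 0 := by
    intro A
    split_ifs with h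
    · have e : (∑ y : κ → ZMod p,
          if g (upd S A y) = r ∧ g' (upd S A y) = s then 1 else 0) =
          (univ.filter (fun y : κ → ZMod p => l A y = s)).card := by
        rw [Finset.card_filter]
        refine Finset.sum_congr rfl fun y _ => ?_
        rw [hl, hg]
        simp [h]
      rw [e]
      by_cases h4 : l A = 0
      · rw [h4]
        have : (univ.filter (fun y : κ → ZMod p =>
            (0 : (κ → ZMod p) →ₗ[ZMod p] ZMod p) y = s)) = ∅ := by
          rw [Finset.filter_eq_empty_iff]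
          intro y _ h3
          exact hs (by rw [← h3]; rfl)
        rw [this, card_empty, mul_zero]
        exact Nat.zero_le _
      · exact (fibre _ h4 s).le
    · have e : (∑ y : κ → ZMod p,
          if g (upd S A y) = r ∧ g' (upd S A y) = s then 1 else 0) = 0 := by
        refine Finset.sum_eq_zero fun y _ => ?_
        rw [hg]
        simp [h]
      rw [e, mul_zero]
  have h3 : p * (∑ A : κ → ZMod p, ∑ y : κ → ZMod p,
      if g (upd S A y) = r ∧ g' (upd S A y) = s then 1 else 0) ≤
      Fintype.card (κ → ZMod p) * cn g r := by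
    rw [Finset.mul_sum]
    refine (Finset.sum_le_sum fun A _ => h2 A).trans (le_of_eq ?_)
    rw [← Finset.sum_filter, sum_const, smul_eq_mul, mul_comm]
    rfl
  rw [h1] at h3
  rw [Finset.card_filter]
  calc Fintype.card (κ → ZMod p) * (p * ∑ A : κ → ZMod p,
        if g A = r ∧ g' A = s then 1 else 0) =
      p * (Fintype.card (κ → ZMod p) * ∑ A : κ → ZMod p,
        if g A = r ∧ g' A = s then 1 else 0) := by ring
    _ ≤ _ := h3

end abs

/-! ### Minors -/

/-- the minor with the rows `I` and the columns `f i`, `i ∈ I`, of the matrix with the entries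
`A (i, j)` -/
def mnr {m n : ℕ} {R : Type*} [CommRing R] {I : Finset (Fin m)} (f : I ↪ Fin n)
    (A : Fin m × Fin n → R) : R :=
  (Matrix.of fun i j : I => A (i.1, f j)).det

section minors

variable {m n p : ℕ} [hp : Fact p.Prime]

theorem lin_row {I : Finset (Fin m)} (f : I ↪ Fin n) (i0 : I) :
    LinOn (p := p) (fun k : Fin m × Fin n => k.1 = i0.1) (mnr f) := by
  intro A
  refine ⟨((Matrix.detRowAlternating (R := ZMod p) (n := I)).toMultilinearMap.toLinearMap
    (Matrix.of fun i j : I => A (i.1, f j)) i0) ∘ₗ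
    LinearMap.funLeft (ZMod p) (ZMod p) (fun j : I => ((i0.1 : Fin m), f j)), fun y => ?_⟩
  rw [LinearMap.comp_apply]
  show _ = Matrix.det (Function.update (Matrix.of fun i j : I => A (i.1, f j)) i0
    (LinearMap.funLeft (ZMod p) (ZMod p) (fun j : I => ((i0.1 : Fin m), f j)) y))
  unfold mnr
  congr 1
  ext a b
  by_cases h : a = i0
  · subst h
    rw [Function.update_self]
    simp [upd, LinearMap.funLeft]
  · rw [Function.update_of_ne h]
    have h' : (a : Fin m) ≠ i0 := fun h' => h (Subtype.ext h')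
    simp [upd, h]

theorem lin_col {I : Finset (Fin m)} (f : I ↪ Fin n) (i0 : I) :
    LinOn (p := p) (fun k : Fin m × Fin n => k.2 = f i0) (mnr f) := by
  intro A
  refine ⟨((Matrix.detRowAlternating (R := ZMod p) (n := I)).toMultilinearMap.toLinearMap
    (Matrix.of fun j i : I => A (i.1, f j)) i0) ∘ₗ
    LinearMap.funLeft (ZMod p) (ZMod p) (fun i : I => ((i.1 : Fin m), f i0)), fun y => ?_⟩
  rw [LinearMap.comp_apply]
  show _ = Matrix.det (Function.update (Matrix.of fun j i : I => A (i.1, f j)) i0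
    (LinearMap.funLeft (ZMod p) (ZMod p) (fun i : I => ((i.1 : Fin m), f i0)) y))
  unfold mnr
  rw [← Matrix.det_transpose]
  congr 1
  ext a b
  rw [Matrix.transpose_apply]
  by_cases h : a = i0
  · subst h
    rw [Function.update_self]
    simp [upd, LinearMap.funLeft]
  · rw [Function.update_of_ne h]
    have h' : f a ≠ f i0 := fun h' => h (f.injective h')
    simp [upd, h]

theorem mnr_zero {I : Finset (Fin m)} (f : I ↪ Fin n) :
    p * cn (p := p) (mnr f) 0 ≤ m * Fintype.card (Fin m × Fin n → ZMod p) := by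
  classical
  obtain ⟨E, hE⟩ : ∃ E : Fin m × Fin n → ZMod p, ∀ i j : I, E (i.1, f j) =
      (1 : Matrix I I (ZMod p)) i j := by
    refine ⟨fun k => if h : k.1 ∈ I then (if f ⟨k.1, h⟩ = k.2 then 1 else 0) else 0,
      fun i j => ?_⟩
    show (if h : (i : Fin m) ∈ I then (if f ⟨i, h⟩ = f j then (1 : ZMod p) else 0) else 0) = _
    rw [dif_pos i.2, Matrix.one_apply]
    by_cases h : i = j
    · subst h
      simp
    · rw [if_neg h, if_neg]
      intro h'
      exact h (f.injective h')
  -- translation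
  have h1 : ∀ t : ZMod p, (univ.filter (fun A : Fin m × Fin n → ZMod p =>
      mnr f (A + t • E) = 0)).card = cn (p := p) (mnr f) 0 := by
    intro t
    unfold cn
    refine Finset.card_bij' (fun A _ => A + t • E) (fun A _ => A - t • E) ?_ ?_ ?_ ?_
    · intro A hA
      rw [mem_filter] at hA ⊢
      exact ⟨mem_univ _, hA.2⟩
    · intro A hA
      rw [mem_filter] at hA ⊢
      refine ⟨mem_univ _, ?_⟩
      rw [sub_add_cancel]
      exact hA.2
    · intro A _
      exact add_sub_cancel_right _ _
    · intro A _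
      exact sub_add_cancel _ _
  have h2 : ∀ A : Fin m × Fin n → ZMod p,
      (univ.filter (fun t : ZMod p => mnr f (A + t • E) = 0)).card ≤ m := by
    intro A
    obtain ⟨B, hB⟩ : ∃ B : Matrix I I (ZMod p), B =
      -(Matrix.of fun i j : I => A (i.1, f j)) := ⟨_, rfl⟩
    have e : ∀ t : ZMod p, mnr f (A + t • E) = B.charpoly.eval t := by
      intro t
      rw [Matrix.eval_charpoly, hB]
      unfold mnr
      congr 1
      ext a b
      rw [Matrix.of_apply, Pi.add_apply, Pi.smul_apply, hE]
      by_cases hab : a = b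
      · subst hab
        simp
        ring
      · simp [hab, Matrix.scalar_apply]
    have h3 : (univ.filter (fun t : ZMod p => mnr f (A + t • E) = 0)) ⊆
        B.charpoly.roots.toFinset := by
      intro t ht
      rw [mem_filter] at ht
      rw [Multiset.mem_toFinset, Polynomial.mem_roots B.charpoly_monic.ne_zero]
      show B.charpoly.eval t = 0
      rw [← e]
      exact ht.2
    refine (card_le_card h3).trans ((Multiset.toFinset_card_le _).trans
      ((Polynomial.card_roots' _).trans ?_))
    rw [Matrix.charpoly_natDegree_eq_dim, Fintype.card_coe]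
    exact (card_le_univ I).trans (by rw [Fintype.card_fin])
  calc p * cn (p := p) (mnr f) 0 = ∑ t : ZMod p, (univ.filter
        (fun A : Fin m × Fin n → ZMod p => mnr f (A + t • E) = 0)).card := by
        rw [Finset.sum_congr rfl (fun t _ => h1 t), sum_const, card_univ, ZMod.card, smul_eq_mul]
    _ = ∑ A : Fin m × Fin n → ZMod p,
        (univ.filter (fun t : ZMod p => mnr f (A + t • E) = 0)).card := by
        simp_rw [Finset.card_filter]
        rw [Finset.sum_comm]
    _ ≤ ∑ A : Fin m × Fin n → ZMod p, m := Finset.sum_le_sum fun A _ => h2 A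
    _ = m * Fintype.card (Fin m × Fin n → ZMod p) := by
        rw [sum_const, card_univ, smul_eq_mul, mul_comm]

theorem indep_row {I : Finset (Fin m)} (f : I ↪ Fin n) {i0 : Fin m} (h : i0 ∉ I)
    (A y : Fin m × Fin n → ZMod p) :
    mnr f (upd (fun k : Fin m × Fin n => k.1 = i0) A y) = mnr f A := by
  unfold mnr
  congr 1
  ext a b
  have : (a : Fin m) ≠ i0 := fun h' => h (h' ▸ a.2)
  simp [upd, this]

theorem indep_col {I : Finset (Fin m)} (f : I ↪ Fin n) {j0 : Fin n} (h : j0 ∉ Set.range f)
    (A y : Fin m × Fin n → ZMod p) :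
    mnr f (upd (fun k : Fin m × Fin n => k.2 = j0) A y) = mnr f A := by
  unfold mnr
  congr 1
  ext a b
  have : f b ≠ j0 := fun h' => h ⟨b, h'⟩
  simp [upd, this]

/-- two different minors -/
theorem pairs {I J : Finset (Fin m)} (f : I ↪ Fin n) (g : J ↪ Fin n) (hI : I.Nonempty)
    (hJ : J.Nonempty) (hne : I ≠ J ∨ Set.range f ≠ Set.range g) {r s : ZMod p} (hr : r ≠ 0)
    (hs : s ≠ 0) :
    p * (p * (univ.filter (fun A : Fin m × Fin n → ZMod p => mnr f A = r ∧ mnr g A = s)).card) ≤
      Fintype.card (Fin m × Fin n → ZMod p) := by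
  classical
  have bI := (cn_bounds (lin_row (p := p) f ⟨hI.choose, hI.choose_spec⟩) (mnr_zero f) hr).1
  have bJ := (cn_bounds (lin_row (p := p) g ⟨hJ.choose, hJ.choose_spec⟩) (mnr_zero g) hs).1
  have e : (univ.filter (fun A : Fin m × Fin n → ZMod p => mnr f A = r ∧ mnr g A = s)) =
      (univ.filter (fun A : Fin m × Fin n → ZMod p => mnr g A = s ∧ mnr f A = r)) := by
    ext A
    simp only [mem_filter, mem_univ, true_and]
    exact and_comm
  -- a row or a column
  have key : (∃ j ∈ J, j ∉ I) ∨ (∃ i ∈ I, i ∉ J) ∨ (∃ j ∈ Set.range g, j ∉ Set.range f) ∨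
      (∃ j ∈ Set.range f, j ∉ Set.range g) := by
    by_contra hcon
    push Not at hcon
    obtain ⟨h1, h2, h3, h4⟩ := hcon
    rcases hne with h | h
    · exact h (Finset.Subset.antisymm h2 h1)
    · exact h (Set.Subset.antisymm h4 h3)
  rcases key with ⟨j, hj, hjI⟩ | ⟨i, hi, hiJ⟩ | ⟨_, ⟨j, rfl⟩, hjI⟩ | ⟨_, ⟨i, rfl⟩, hiJ⟩
  · have h1 := pair (p := p) (S := fun k : Fin m × Fin n => k.1 = j) (g := mnr f) (g' := mnr g)
      (fun A y => indep_row f hjI A y) (lin_row g ⟨j, hj⟩) (r := r) hs
    exact (Nat.mul_le_mul_left p h1).trans bI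
  · have h1 := pair (p := p) (S := fun k : Fin m × Fin n => k.1 = i) (g := mnr g) (g' := mnr f)
      (fun A y => indep_row g hiJ A y) (lin_row f ⟨i, hi⟩) (r := s) hr
    rw [e]
    exact (Nat.mul_le_mul_left p h1).trans bJ
  · have h1 := pair (p := p) (S := fun k : Fin m × Fin n => k.2 = g j) (g := mnr f) (g' := mnr g)
      (fun A y => indep_col f hjI A y) (lin_col g j) (r := r) hs
    exact (Nat.mul_le_mul_left p h1).trans bI
  · have h1 := pair (p := p) (S := fun k : Fin m × Fin n => k.2 = f i) (g := mnr g) (g' := mnr f)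
      (fun A y => indep_col g hiJ A y) (lin_col f i) (r := s) hr
    rw [e]
    exact (Nat.mul_le_mul_left p h1).trans bJ

end minors

/-! ### The polynomials -/

/-- the minor as a polynomial -/
noncomputable def pol {m n : ℕ} {I : Finset (Fin m)} (f : I ↪ Fin n) :
    MvPolynomial (Fin (m * n)) ℤ :=
  mnr f (fun k => MvPolynomial.X (finProdFinEquiv k))

theorem aeval_pol {m n : ℕ} {I : Finset (Fin m)} (f : I ↪ Fin n) {R : Type*} [CommRing R]
    (x : Fin (m * n) → R) :
    MvPolynomial.aeval x (pol f) = mnr f (fun k => x (finProdFinEquiv k)) := by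
  unfold pol mnr
  rw [AlgHom.map_det]
  congr 1
  ext a b
  simp

theorem eval_pol {m n : ℕ} {I : Finset (Fin m)} (f : I ↪ Fin n) (x : Fin (m * n) → ℤ) :
    MvPolynomial.eval x (pol f) = mnr f (fun k => x (finProdFinEquiv k)) := by
  rw [← aeval_pol, MvPolynomial.aeval_eq_eval]

theorem card_eq {m n p : ℕ} [Fact p.Prime] {I : Finset (Fin m)} (f : I ↪ Fin n) (r : ZMod p) :
    Nat.card {x : Fin (m * n) → ZMod p // MvPolynomial.aeval x (pol f) = r} =
      cn (mnr f) r := by
  classical
  unfold cn
  rw [← Fintype.card_subtype, ← Nat.card_eq_fintype_card]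
  refine Nat.card_congr ((Equiv.arrowCongr finProdFinEquiv.symm
    (Equiv.refl (ZMod p))).subtypeEquiv fun x => ?_)
  rw [aeval_pol]
  rfl

theorem card_pair {m n p : ℕ} [Fact p.Prime] {I J : Finset (Fin m)} (f : I ↪ Fin n)
    (g : J ↪ Fin n) (r s : ZMod p) :
    Nat.card {x : Fin (m * n) → ZMod p // MvPolynomial.aeval x (pol f) = r ∧
      MvPolynomial.aeval x (pol g) = s} =
      (univ.filter (fun A : Fin m × Fin n → ZMod p => mnr f A = r ∧ mnr g A = s)).card := by
  classical
  rw [← Fintype.card_subtype, ← Nat.card_eq_fintype_card]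
  refine Nat.card_congr ((Equiv.arrowCongr finProdFinEquiv.symm
    (Equiv.refl (ZMod p))).subtypeEquiv fun x => ?_)
  rw [aeval_pol, aeval_pol]
  rfl

theorem cardV (m n p : ℕ) [Fact p.Prime] :
    Fintype.card (Fin m × Fin n → ZMod p) = p ^ (m * n) := by
  rw [Fintype.card_fun, ZMod.card, Fintype.card_prod, Fintype.card_fin, Fintype.card_fin]

/-- Record gaps around all minors of a family. -/
theorem minors {ι : Type} [Fintype ι] (m n : ℕ) (I : ι → Finset (Fin m))
    (f : ∀ j, I j ↪ Fin n) (hne : ∀ j, (I j).Nonempty)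
    (hd : ∀ i j, i ≠ j → I i ≠ I j ∨ Set.range (f i) ≠ Set.range (f j))
    (A₁ : Fin m × Fin n → ℤ) (h01 : ∀ j, |mnr (f j) A₁| = 1) :
    ∃ c : ℝ, 0 < c ∧ ∃ Z₀ : ℝ, ∀ Z : ℕ, Z₀ ≤ Z →
    ∀ M : Fin m × Fin n → ℤ, ∃ A : Fin m × Fin n → ℤ,
      (∀ k, M k < A k ∧ A k ≤ M k + Z) ∧
      ∀ j, ∀ t : ℤ, |(t : ℝ) - ((mnr (f j) A : ℤ) : ℝ)| ≤ c * Pool.Agent.H256R2.SC.ff Z →
        ∃ p : ℕ, p.Prime ∧ (p : ℝ) ≤ (Z : ℝ) ^ (1 / 10 : ℝ) ∧ (p : ℤ) ∣ t := by
  classical
  obtain ⟨c, hc, Z₀, h⟩ := Pool.Agent.Y837.SV.criterion (ι := ι)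
    (m * n) (fun j => pol (f j)) (fun j => 0) (fun k => 0)
    (fun k => A₁ (finProdFinEquiv.symm k))
    (by
      intro j
      rw [eval_pol]
      have : Nonempty (I j) := ⟨⟨(hne j).choose, (hne j).choose_spec⟩⟩
      unfold mnr
      exact Matrix.det_zero)
    (by
      intro j
      rw [eval_pol]
      have : (fun k : Fin m × Fin n => A₁ (finProdFinEquiv.symm (finProdFinEquiv k))) = A₁ := by
        funext k
        rw [Equiv.symm_apply_apply]
      rw [this, sub_zero]
      exact h01 j)
    (m + 1) 1 one_pos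
    (by
      intro p hp j r hr
      have hpf : Fact p.Prime := ⟨hp⟩
      have hr0 : r ≠ 0 := by simpa using hr
      show |(p : ℝ) * (Nat.card {x : Fin (m * n) → ZMod p //
        MvPolynomial.aeval x (pol (f j)) = r} : ℝ) - (p : ℝ) ^ (m * n)| ≤ _
      rw [card_eq]
      obtain ⟨h1, h2⟩ := cn_bounds (lin_row (p := p) (f j) ⟨(hne j).choose, (hne j).choose_spec⟩)
        (mnr_zero (f j)) hr0
      rw [cardV] at h1 h2
      have h1' : (p : ℝ) * (cn (mnr (f j)) r : ℝ) ≤ (p : ℝ) ^ (m * n) := by exact_mod_cast h1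
      have h2' : (p : ℝ) * (p : ℝ) ^ (m * n) ≤ p * (p * (cn (mnr (f j)) r : ℝ)) +
          m * (p : ℝ) ^ (m * n) := by
        exact_mod_cast h2
      have hp0 : (0 : ℝ) < p := by exact_mod_cast hp.pos
      rw [abs_sub_comm, abs_of_nonneg (by linarith), Real.rpow_neg_one, ← div_eq_mul_inv,
        le_div_iff₀ hp0]
      have h3 : (0 : ℝ) ≤ (p : ℝ) ^ (m * n) := by positivity
      nlinarith)
    (by
      intro p hp i j hij r s hr hs
      have hpf : Fact p.Prime := ⟨hp⟩
      have hr0 : r ≠ 0 := by simpa using hr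
      have hs0 : s ≠ 0 := by simpa using hs
      show (p : ℝ) ^ 2 * (Nat.card {x : Fin (m * n) → ZMod p //
        MvPolynomial.aeval x (pol (f i)) = r ∧ MvPolynomial.aeval x (pol (f j)) = s} : ℝ) ≤ _
      rw [card_pair]
      have key := pairs (p := p) (f i) (f j) (hne i) (hne j) (hd i j hij) hr0 hs0
      rw [cardV] at key
      have key' : (p : ℝ) * (p * ((univ.filter (fun A : Fin m × Fin n → ZMod p =>
          mnr (f i) A = r ∧ mnr (f j) A = s)).card : ℝ)) ≤ (p : ℝ) ^ (m * n) := by
        exact_mod_cast key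
      have h3 : (0 : ℝ) ≤ (p : ℝ) ^ (m * n) := by positivity
      have h4 : (0 : ℝ) ≤ m := Nat.cast_nonneg m
      nlinarith)
  refine ⟨c, hc, Z₀, fun Z hZ M => ?_⟩
  obtain ⟨x, hx1, hx2⟩ := h Z hZ (fun k => M (finProdFinEquiv.symm k))
  refine ⟨fun k => x (finProdFinEquiv k), fun k => ?_, fun j t ht => ?_⟩
  · have h1 := hx1 (finProdFinEquiv k)
    rw [Equiv.symm_apply_apply] at h1
    exact h1
  · refine hx2 j t ?_
    show |(t : ℝ) - ((MvPolynomial.eval x (pol (f j)) : ℤ) : ℝ)| ≤ _
    rw [eval_pol]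
    exact ht

/-! ### Cramer's rule -/

/-- the columns of the determinant in which the column `i` is replaced by the right hand side -/
def cra {n : ℕ} (I : Finset (Fin n)) (i : Option I) : I ↪ Fin (n + 1) where
  toFun := fun a => if some a = i then Fin.last n else Fin.castSucc a.1
  inj' := by
    intro a b h
    by_cases ha : some a = i
    · by_cases hb : some b = i
      · exact Option.some_injective _ (ha.trans hb.symm)
      · simp only [ha, if_true, hb, if_false] at h
        exact absurd h.symm (Fin.castSucc_lt_last _).ne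
    · by_cases hb : some b = i
      · simp only [ha, if_false, hb, if_true] at h
        exact absurd h (Fin.castSucc_lt_last _).ne
      · simp only [ha, hb, if_false] at h
        exact Subtype.ext (Fin.castSucc_injective _ h)

/-- the augmented matrix -/
def aug {n : ℕ} {R : Type*} (A : Matrix (Fin n) (Fin n) R) (b : Fin n → R) :
    Fin n × Fin (n + 1) → R := fun k => Fin.snoc (α := fun _ => R) (fun j => A k.1 j) (b k.1) k.2

theorem mnr_none {n : ℕ} {R : Type*} [CommRing R] (I : Finset (Fin n))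
    (A : Matrix (Fin n) (Fin n) R) (b : Fin n → R) :
    mnr (cra I none) (aug A b) = (A.submatrix (Subtype.val : I → Fin n) Subtype.val).det := by
  unfold mnr
  congr 1
  ext a c
  simp [cra, aug]

theorem mnr_some {n : ℕ} {R : Type*} [CommRing R] (I : Finset (Fin n)) (i : I)
    (A : Matrix (Fin n) (Fin n) R) (b : Fin n → R) :
    mnr (cra I (some i)) (aug A b) =
      (A.submatrix (Subtype.val : I → Fin n) Subtype.val).cramer (fun a => b a.1) i := by
  rw [Matrix.cramer_apply]
  unfold mnr
  congr 1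
  ext a c
  by_cases h : c = i
  · subst h
    simp [cra, aug]
  · simp [cra, aug, h, Matrix.updateCol_ne h]

/-- Record gaps around all the numerators and denominators of Cramer's rule. -/
theorem cramer (n : ℕ) : ∃ c : ℝ, 0 < c ∧ ∃ Z₀ : ℝ, ∀ Z : ℕ, Z₀ ≤ Z →
    ∀ (M : Matrix (Fin n) (Fin n) ℤ) (N : Fin n → ℤ),
      ∃ (A : Matrix (Fin n) (Fin n) ℤ) (b : Fin n → ℤ),
      (∀ i j, M i j < A i j ∧ A i j ≤ M i j + Z) ∧ (∀ i, N i < b i ∧ b i ≤ N i + Z) ∧
      ∀ I : Finset (Fin n), I.Nonempty → ∀ t : ℤ,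
        (|(t : ℝ) - (((A.submatrix (Subtype.val : I → Fin n) Subtype.val).det : ℤ) : ℝ)| ≤
            c * Pool.Agent.H256R2.SC.ff Z ∨
          ∃ i : I, |(t : ℝ) - (((A.submatrix (Subtype.val : I → Fin n) Subtype.val).cramer
            (fun a => b a.1) i : ℤ) : ℝ)| ≤ c * Pool.Agent.H256R2.SC.ff Z) →
        ∃ p : ℕ, p.Prime ∧ (p : ℝ) ≤ (Z : ℝ) ^ (1 / 10 : ℝ) ∧ (p : ℤ) ∣ t := by
  classical
  obtain ⟨c, hc, Z₀, h⟩ := minors (ι := Σ I : {I : Finset (Fin n) // I.Nonempty}, Option I.1)
    n (n + 1) (fun q => q.1.1) (fun q => cra q.1.1 q.2) (fun q => q.1.2)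
    (by
      rintro ⟨⟨I, hI⟩, i⟩ ⟨⟨J, hJ⟩, j⟩ hne
      by_cases hIJ : I = J
      · subst hIJ
        right
        have hij : i ≠ j := fun h => hne (by rw [h])
        intro hr
        rcases i with _ | i
        · rcases j with _ | j
          · exact hij rfl
          · have h1 : Fin.last n ∈ Set.range (cra I (some j)) := ⟨j, by simp [cra]⟩
            change Set.range (cra I none) = Set.range (cra I (some j)) at hr
            rw [← hr] at h1
            obtain ⟨a, ha⟩ := h1
            simp [cra] at ha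
        · have h1 : Fin.castSucc i.1 ∉ Set.range (cra I (some i)) := by
            rintro ⟨a, ha⟩
            by_cases h2 : a = i
            · subst h2
              simp [cra] at ha
              exact absurd ha.symm (Fin.castSucc_lt_last _).ne
            · simp [cra, h2] at ha
          apply h1
          change Set.range (cra I (some i)) = Set.range (cra I j) at hr
          rw [hr]
          refine ⟨i, ?_⟩
          have h3 : some i ≠ j := hij
          simp [cra, h3]
      · left
        exact hIJ)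
    (aug 1 (fun _ => 1))
    (by
      rintro ⟨⟨I, hI⟩, i⟩
      show |mnr (cra I i) (aug (1 : Matrix (Fin n) (Fin n) ℤ) (fun _ => 1))| = 1
      rcases i with _ | i
      · rw [mnr_none, Matrix.submatrix_one _ Subtype.val_injective, Matrix.det_one, abs_one]
      · rw [mnr_some, Matrix.submatrix_one _ Subtype.val_injective, Matrix.cramer_one]
        simp)
  refine ⟨c, hc, Z₀, fun Z hZ M N => ?_⟩
  obtain ⟨x, hx1, hx2⟩ := h Z hZ (aug M N)
  have hx : x = aug (fun i j => x (i, Fin.castSucc j)) (fun i => x (i, Fin.last n)) := by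
    funext ⟨i, j⟩
    refine Fin.lastCases ?_ (fun j => ?_) j
    · simp [aug]
    · simp [aug]
  refine ⟨fun i j => x (i, Fin.castSucc j), fun i => x (i, Fin.last n), fun i j => ?_,
    fun i => ?_, fun I hI t ht => ?_⟩
  · have h1 := hx1 (i, Fin.castSucc j)
    simpa [aug] using h1
  · have h1 := hx1 (i, Fin.last n)
    simpa [aug] using h1
  · rcases ht with ht | ⟨i, ht⟩
    · refine hx2 ⟨⟨I, hI⟩, none⟩ t ?_
      show |(t : ℝ) - ((mnr (cra I none) x : ℤ) : ℝ)| ≤ _
      rw [hx, mnr_none]
      exact ht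
    · refine hx2 ⟨⟨I, hI⟩, some i⟩ t ?_
      show |(t : ℝ) - ((mnr (cra I (some i)) x : ℤ) : ℝ)| ≤ _
      rw [hx, mnr_some]
      exact ht

end Pool.Agent.X145.PM
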